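import Pool.Agent.Zk30.SQ.Ener
import Pool.Agent.Zk30.SP.Bound

/-!
# Lower bounds for the exponent and for the constant
-/

set_option autoImplicit false

namespace Pool.Agent.Zk30.SQ

open Pool.Agent.Zk30.SP (cS)

/-- the logarithm of the threshold -/
theorem mm_log : ∃ B : ℝ, 0 < B ∧ ∀ ε : ℝ, 0 < ε → ε ≤ 1 → ∃ m : ℝ, 0 ≤ m ∧
    m ≤ B * Real.exp (17 / ε) ∧ mm ε = Real.exp m := by
  obtain ⟨B, hB⟩ : ∃ B : ℝ, B = (65536 * 21 ^ 8 + 23) * 2304 * 6 := ⟨_, rfl⟩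
  refine ⟨B, by rw [hB]; norm_num, ?_⟩
  intro ε hε hε1
  refine ⟨cS (ε / 4) / min 1 (ε / 6), ?_, ?_, rfl⟩
  · have h := (Pool.Agent.Zk30.SP.sys (ε / 4) (by positivity) _ rfl).1
    positivity
  have h1 := Pool.Agent.Zk30.SP.cS_le (t := ε / 4) (by positivity) (by linarith)
  have e1 : min 1 (ε / 6) = ε / 6 := min_eq_right (by linarith)
  have e2 : (4 : ℝ) / (ε / 4) = 16 / ε := by field_simp; norm_num
  rw [e2] at h1
  have hi2 : 1 / ε ≤ Real.exp (1 / ε) := by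
    have := Real.add_one_le_exp (1 / ε)
    linarith
  have h2 : cS (ε / 4) * 6 ≤ B * Real.exp (16 / ε) := by rw [hB]; linarith
  have hB0 : 0 < B := by rw [hB]; norm_num
  rw [e1]
  have e3 : cS (ε / 4) / (ε / 6) = cS (ε / 4) * 6 * (1 / ε) := by field_simp
  have e4 : Real.exp (17 / ε) = Real.exp (16 / ε) * Real.exp (1 / ε) := by
    rw [← Real.exp_add]; congr 1; ring
  rw [e3, e4, ← mul_assoc]
  calc cS (ε / 4) * 6 * (1 / ε) ≤ (B * Real.exp (16 / ε)) * (1 / ε) :=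
        mul_le_mul_of_nonneg_right h2 (by positivity)
    _ ≤ (B * Real.exp (16 / ε)) * Real.exp (1 / ε) :=
        mul_le_mul_of_nonneg_left hi2 (by positivity)

theorem rpow_le_exp {a t s : ℝ} (ha : 1 ≤ a) (ht : Real.log a ≤ t) (hs : 0 ≤ s) :
    a ^ s ≤ Real.exp (t * s) := by
  rw [Real.rpow_def_of_pos (by linarith)]
  exact Real.exp_le_exp.2 (mul_le_mul_of_nonneg_right ht hs)

theorem gg_le {ε m M C l : ℝ} (hε : 0 < ε) (hM : M = Real.exp m) (hm : 0 ≤ m)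
    (hC : C = 9 + 720 * M) (hl : l = Real.log (1 + 1 / (min 1 (ε / 6) / (4 * M)))) :
    gg ε M ≤ Real.exp (C * (6 + l)) := by
  have hM1 : 1 ≤ M := by rw [hM]; exact Real.one_le_exp hm
  have hmin : 0 < min 1 (ε / 6) := by positivity
  have hl0 : 0 ≤ l := by
    rw [hl]
    apply Real.log_nonneg
    have : 0 < 1 / (min 1 (ε / 6) / (4 * M)) := by positivity
    linarith
  have hlog2 : Real.log 2 ≤ 1 := by linarith [Real.log_two_lt_d9]
  have hC9 : 9 ≤ C := by rw [hC]; linarith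
  unfold gg
  rw [← hl]
  have h1 : (2 ^ 22 : ℝ) ^ (18 * M) ≤ Real.exp C := by
    have h2 : Real.log (2 ^ 22) ≤ 22 := by
      rw [Real.log_pow]; push_cast; linarith
    refine (rpow_le_exp (by norm_num) h2 (by positivity)).trans (Real.exp_le_exp.2 ?_)
    rw [hC]; linarith
  have h3 : Real.exp (2 * Real.log 2 + 20 * M + 4 * M * l) ≤ Real.exp (C + C * l) := by
    apply Real.exp_le_exp.2
    have h4 : 4 * M * l ≤ C * l := mul_le_mul_of_nonneg_right (by rw [hC]; linarith) hl0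
    have h5 : 2 * Real.log 2 + 20 * M ≤ C := by rw [hC]; linarith
    linarith
  have h6 : (19 : ℝ) ^ (9 + 40 * (18 * M)) ≤ Real.exp (3 * C) := by
    have h7 : Real.log 19 ≤ 3 := by
      rw [Real.log_le_iff_le_exp (by norm_num)]
      have e : Real.exp 3 = Real.exp 1 ^ 3 := by
        rw [← Real.exp_nat_mul]; norm_num
      rw [e]
      have h8 : (2.7 : ℝ) ^ 3 ≤ Real.exp 1 ^ 3 :=
        pow_le_pow_left₀ (by norm_num) (by linarith [Real.exp_one_gt_d9]) 3
      have h9 : (2.71 : ℝ) ^ 3 ≤ Real.exp 1 ^ 3 :=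
        pow_le_pow_left₀ (by norm_num) (by linarith [Real.exp_one_gt_d9]) 3
      norm_num at h8 h9 ⊢
      linarith
    refine (rpow_le_exp (by norm_num) h7 (by positivity)).trans (Real.exp_le_exp.2 ?_)
    rw [hC]; linarith
  have h10 : (2067 : ℝ) ≤ Real.exp C := by
    have e : Real.exp 9 = Real.exp 1 ^ 9 := by
      rw [← Real.exp_nat_mul]; norm_num
    have h8 : (2.7 : ℝ) ^ 9 ≤ Real.exp 1 ^ 9 :=
      pow_le_pow_left₀ (by norm_num) (by linarith [Real.exp_one_gt_d9]) 9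
    have h9 : Real.exp 9 ≤ Real.exp C := Real.exp_le_exp.2 hC9
    rw [e] at h9
    norm_num at h8
    linarith
  obtain ⟨a, ha⟩ : ∃ a : ℝ, a = (2 ^ 22 : ℝ) ^ (18 * M) := ⟨_, rfl⟩
  obtain ⟨b, hb⟩ : ∃ b : ℝ, b = Real.exp (2 * Real.log 2 + 20 * M + 4 * M * l) := ⟨_, rfl⟩
  obtain ⟨d, hd⟩ : ∃ d : ℝ, d = (19 : ℝ) ^ (9 + 40 * (18 * M)) := ⟨_, rfl⟩
  rw [← ha] at h1
  rw [← hb] at h3
  rw [← hd] at h6
  rw [← ha, ← hb, ← hd]
  have ha0 : 0 ≤ a := by rw [ha]; positivity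
  have hb0 : 0 ≤ b := by rw [hb]; positivity
  have hd0 : 0 ≤ d := by rw [hd]; positivity
  obtain ⟨P, hP⟩ : ∃ P : ℝ, P = Real.exp C * Real.exp (C + C * l) * Real.exp (3 * C) := ⟨_, rfl⟩
  have hP' : P = Real.exp (5 * C + C * l) := by
    rw [hP, ← Real.exp_add, ← Real.exp_add]; congr 1; ring
  have hP1 : 1 ≤ P := by rw [hP']; exact Real.one_le_exp (by positivity)
  have h11 : a * b * d ≤ P := by
    rw [hP]
    exact mul_le_mul (mul_le_mul h1 h3 hb0 (Real.exp_pos _).le) h6 hd0 (by positivity)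
  have e2 : Real.exp (C * (6 + l)) = Real.exp C * P := by
    rw [hP', ← Real.exp_add]; congr 1; ring
  rw [e2]
  have e3 : 19 + 256 * a * (8 * b) * d = 19 + 2048 * (a * b * d) := by ring
  rw [e3]
  have h12 : 2067 * P ≤ Real.exp C * P := mul_le_mul_of_nonneg_right h10 (by linarith)
  linarith

theorem cc_ge {ε m M C : ℝ} (hε : 0 < ε) (hε1 : ε ≤ 1) (hM : M = Real.exp m) (hm : 0 ≤ m)
    (hC : C = 9 + 720 * M) :
    Real.exp (-(23401 + 3 * m + 3 / ε)) ≤ cc ε C (gg ε M) := by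
  have hM1 : 1 ≤ M := by rw [hM]; exact Real.one_le_exp hm
  have hM0 : 0 < M := by linarith
  have hC9 : 9 ≤ C := by rw [hC]; linarith
  have hC0 : 0 < C := by linarith
  have hi : 1 ≤ 1 / ε := by rw [le_div_iff₀ hε]; linarith
  have hi2 : 1 / ε ≤ Real.exp (1 / ε) := by
    have := Real.add_one_le_exp (1 / ε)
    linarith
  have hlog2 : 1 / 2 ≤ Real.log 2 := by linarith [Real.log_two_gt_d9]
  obtain ⟨l, hl⟩ : ∃ l : ℝ, l = Real.log (1 + 1 / (min 1 (ε / 6) / (4 * M))) := ⟨_, rfl⟩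
  have e1 : min 1 (ε / 6) = ε / 6 := min_eq_right (by linarith)
  have hl0 : 0 ≤ l := by
    rw [hl, e1]
    apply Real.log_nonneg
    have : 0 < 1 / (ε / 6 / (4 * M)) := by positivity
    linarith
  have hMi : 1 ≤ M * (1 / ε) := by nlinarith
  have hl1 : l ≤ 25 + m + 1 / ε := by
    rw [hl, e1, Real.log_le_iff_le_exp (by positivity)]
    have e2 : 1 / (ε / 6 / (4 * M)) = 24 * (M * (1 / ε)) := by field_simp; ring
    have e3 : Real.exp (25 + m + 1 / ε) = Real.exp 25 * (M * Real.exp (1 / ε)) := by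
      rw [hM, ← Real.exp_add, ← Real.exp_add]; congr 1; ring
    have h25 : (25 : ℝ) ≤ Real.exp 25 := by linarith [Real.add_one_le_exp (25 : ℝ)]
    rw [e2, e3]
    calc 1 + 24 * (M * (1 / ε)) ≤ 25 * (M * (1 / ε)) := by linarith
      _ ≤ Real.exp 25 * (M * Real.exp (1 / ε)) :=
        mul_le_mul h25 (mul_le_mul_of_nonneg_left hi2 hM0.le) (by positivity) (Real.exp_pos _).le
  have hG := gg_le hε hM hm hC hl
  obtain ⟨B, hB⟩ : ∃ B : ℝ, B = 4 * (1 + 1 / (Real.log 2 * (ε / 2 / (1 + C)))) := ⟨_, rfl⟩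
  have hB1 : 1 ≤ B := by
    rw [hB]
    have : 0 < 1 / (Real.log 2 * (ε / 2 / (1 + C))) := by positivity
    linarith
  have hBl : Real.log B ≤ 11684 + m + 1 / ε := by
    rw [Real.log_le_iff_le_exp (by linarith)]
    have h1 : 1 / (Real.log 2 * (ε / 2 / (1 + C))) ≤ 2920 * (M * (1 / ε)) := by
      have h2 : 1 / 2 * (ε / 2 / (1 + C)) ≤ Real.log 2 * (ε / 2 / (1 + C)) :=
        mul_le_mul_of_nonneg_right hlog2 (by positivity)
      have h3 := one_div_le_one_div_of_le (by positivity) h2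
      refine h3.trans ?_
      have e4 : 1 / (1 / 2 * (ε / 2 / (1 + C))) = 4 * (1 + C) * (1 / ε) := by field_simp; ring
      rw [e4]
      have h4 : 4 * (1 + C) ≤ 2920 * M := by rw [hC]; linarith
      have := mul_le_mul_of_nonneg_right h4 (by positivity : 0 ≤ 1 / ε)
      linarith
    have e3 : Real.exp (11684 + m + 1 / ε) = Real.exp 11684 * (M * Real.exp (1 / ε)) := by
      rw [hM, ← Real.exp_add, ← Real.exp_add]; congr 1; ring
    have h25 : (11684 : ℝ) ≤ Real.exp 11684 := by linarith [Real.add_one_le_exp (11684 : ℝ)]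
    rw [e3, hB]
    calc 4 * (1 + 1 / (Real.log 2 * (ε / 2 / (1 + C)))) ≤ 11684 * (M * (1 / ε)) := by linarith
      _ ≤ Real.exp 11684 * (M * Real.exp (1 / ε)) :=
        mul_le_mul h25 (mul_le_mul_of_nonneg_left hi2 hM0.le) (by positivity) (Real.exp_pos _).le
  obtain ⟨b, hb⟩ : ∃ b : ℝ, b = 11684 + m + 1 / ε := ⟨_, rfl⟩
  rw [← hb] at hBl
  have hb0 : 0 ≤ b := by rw [hb]; positivity
  unfold cc
  rw [← hB]
  have h4C : (4 : ℝ) ^ C ≤ Real.exp (2 * C) := by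
    apply rpow_le_exp (by norm_num) _ hC0.le
    have e : (4 : ℝ) = 2 ^ 2 := by norm_num
    rw [e, Real.log_pow]
    push_cast
    linarith [Real.log_two_lt_d9]
  have hBC : B ^ (1 + C) ≤ Real.exp (b * (1 + C)) := rpow_le_exp hB1 hBl (by positivity)
  have hG0 : 0 < gg ε M := by unfold gg; positivity
  have hD : B ^ (1 + C) * gg ε M * 4 ^ C ≤ Real.exp (b * (1 + C) + C * (6 + l) + 2 * C) := by
    rw [Real.exp_add, Real.exp_add]
    exact mul_le_mul (mul_le_mul hBC hG hG0.le (Real.exp_pos _).le) h4C (by positivity)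
      (by positivity)
  have hD0 : 0 < B ^ (1 + C) * gg ε M * 4 ^ C := by positivity
  have h5 := Real.rpow_le_rpow hD0.le hD (by positivity : 0 ≤ 1 / C)
  rw [← Real.exp_mul] at h5
  have h6 : (b * (1 + C) + C * (6 + l) + 2 * C) * (1 / C) ≤ 23401 + 3 * m + 3 / ε := by
    have e5 : (b * (1 + C) + C * (6 + l) + 2 * C) * (1 / C) = b * (1 / C) + b + (8 + l) := by
      field_simp; ring
    have h7 : b * (1 / C) ≤ b := by
      have h8 : 1 / C ≤ 1 := by rw [div_le_one hC0]; linarith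
      nlinarith
    have e6 : 3 / ε = 3 * (1 / ε) := by ring
    rw [e5, e6]
    rw [hb] at h7 ⊢
    linarith
  rw [Real.exp_neg]
  exact inv_anti₀ (by positivity) (h5.trans (Real.exp_le_exp.2 h6))

end Pool.Agent.Zk30.SQ
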