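import Pool.Agent.Zk30.SQ.Rich
import Pool.Agent.Zk30.Fin

/-!
# The power saving over Solymosi's inequality with an explicit exponent
-/

set_option autoImplicit false

namespace Pool.Agent.Zk30.SQ

open Finset H633R5.FS Pool.Agent.Zk30
open Pool.Agent.Zk30.SP (cS)
open scoped Pointwise

/-- the threshold for the primes -/
noncomputable def mm (ε : ℝ) : ℝ := Real.exp (cS (ε / 4) / min 1 (ε / 6))

/-- the constant in the inequality for rich slopes, with the exponent `9 + 720 M` -/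
noncomputable def gg (ε M : ℝ) : ℝ :=
  19 + 256 * (2 ^ 22 : ℝ) ^ (18 * M) * (8 * Real.exp (2 * Real.log 2 + 20 * M +
      4 * M * Real.log (1 + 1 / (min 1 (ε / 6) / (4 * M))))) * (19 : ℝ) ^ (9 + 40 * (18 * M))

/-- the constant in the energy inequality -/
noncomputable def cc (ε C G : ℝ) : ℝ :=
  (((4 * (1 + 1 / (Real.log 2 * (ε / 2 / (1 + C))))) ^ (1 + C) * G * 4 ^ C) ^ (1 / C))⁻¹

/-- Solymosi's inequality with a power saving, in terms of the multiplicative energy -/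
theorem energy_main (ε : ℝ) (hε : 0 < ε) (M C κ : ℝ) (hMd : M = mm ε)
    (hCd : C = 9 + 720 * M) (hκd : κ = 1 / C) (c : ℝ) (hcd : c = cc ε C (gg ε M)) : 0 < c ∧
    ∀ X Y : Finset ℤ, X.Nonempty → Y.Nonempty → (∀ x ∈ X, 0 < x) → (∀ y ∈ Y, 0 < y) →
      c * (X.mulEnergy Y : ℝ) * ((X.mulEnergy Y : ℝ) / ((X.card : ℝ) * Y.card) ^ (1 + ε)) ^ κ ≤
        ((X + X).card : ℝ) * (Y + Y).card := by
  classical
  unfold mm at hMd
  have hM0 : 0 < M := by rw [hMd]; positivity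
  have hC : 0 < C := by rw [hCd]; positivity
  obtain ⟨G, hGd⟩ : ∃ G : ℝ, G = gg ε M := ⟨_, rfl⟩
  rw [← hGd] at hcd
  obtain ⟨hG, hrich⟩ := rich (ε / 2) (by positivity) M
    (by rw [hMd, div_div, div_div]; norm_num) C hCd G (by
      rw [hGd, div_div]; unfold gg; norm_num)
  unfold cc at hcd
  rw [hκd]
  obtain ⟨r, hr⟩ : ∃ r : ℝ, r = ε / 2 / (1 + C) := ⟨_, rfl⟩
  have hr0 : 0 < r := by rw [hr]; positivity
  -- `4 L ≤ B N ^ r`
  obtain ⟨B, hB⟩ : ∃ B : ℝ, B = 4 * (1 + 1 / (Real.log 2 * r)) := ⟨_, rfl⟩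
  have hl2 : 0 < Real.log 2 := Real.log_pos (by norm_num)
  have hB0 : 0 < B := by rw [hB]; positivity
  obtain ⟨D, hD⟩ : ∃ D : ℝ, D = B ^ (1 + C) * G * 4 ^ C := ⟨_, rfl⟩
  have hD0 : 0 < D := by rw [hD]; positivity
  have hce : c = (D ^ (1 / C))⁻¹ := by rw [hcd, hD, hB, hr]
  refine ⟨by rw [hce]; positivity, ?_⟩
  rw [hce]
  intro X Y hXne hYne hX hY
  obtain ⟨S, T, hT, hS, hST, hE⟩ := dyadic X Y hX hXne hYne
  have hQex : ∀ l : ℚ, ∃ Q : Finset ℤ, l ∈ S → Q ⊆ fib X Y l ∧ Q.card = T := by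
    intro l
    by_cases hl : l ∈ S
    · obtain ⟨Q, h1, h2⟩ := exists_subset_card_eq (hST l hl)
      exact ⟨Q, fun _ => ⟨h1, h2⟩⟩
    · exact ⟨∅, fun h => absurd h hl⟩
  choose Q hQ using hQex
  have hQX : ∀ l ∈ S, Q l ⊆ X := fun l hl x hx => (mem_fib.1 ((hQ l hl).1 hx)).1
  have hQY : ∀ l ∈ S, ∀ x ∈ Q l, ∃ y ∈ Y, (y : ℚ) = l * x := fun l hl x hx =>
    (mem_fib.1 ((hQ l hl).1 hx)).2
  have hQT : ∀ l ∈ S, (Q l).card = T := fun l hl => (hQ l hl).2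
  have h1 := hrich X Y S Q T hX hY hT hS hQX hQY hQT
  have h2 := basic X Y hX hY S Q T hT hQX hQY hQT
  obtain ⟨V, hV⟩ : ∃ V, V = (S.card : ℝ) * (T : ℝ) ^ 2 := ⟨_, rfl⟩
  obtain ⟨σ, hσ⟩ : ∃ σ, σ = ((X + X).card : ℝ) * (Y + Y).card := ⟨_, rfl⟩
  obtain ⟨N, hN⟩ : ∃ N, N = (X.card : ℝ) * Y.card := ⟨_, rfl⟩
  obtain ⟨E, hEr⟩ : ∃ E : ℝ, E = (X.mulEnergy Y : ℝ) := ⟨_, rfl⟩
  rw [← hV, ← hσ, ← hN] at h1
  rw [← hV, ← hσ] at h2
  rw [← hσ, ← hN, ← hEr]
  have hTr : (1 : ℝ) ≤ T := by exact_mod_cast hT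
  have hSc : (0 : ℝ) < S.card := by exact_mod_cast hS.card_pos
  have hV0 : 0 < V := by rw [hV]; positivity
  have hσ0 : 0 < σ := by linarith
  have cX : (1 : ℝ) ≤ X.card := by exact_mod_cast hXne.card_pos
  have cY : (1 : ℝ) ≤ Y.card := by exact_mod_cast hYne.card_pos
  have hN1 : 1 ≤ N := by rw [hN]; nlinarith
  have hXN : (X.card : ℝ) ≤ N := by rw [hN]; nlinarith
  have hE0 : 0 < E := by
    rw [hEr]; exact_mod_cast Finset.mulEnergy_pos hXne hYne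
  -- the logarithm
  obtain ⟨L, hL⟩ : ∃ L : ℝ, L = ((Nat.log 2 X.card + 1 : ℕ) : ℝ) := ⟨_, rfl⟩
  have hL1 : 4 * L ≤ B * N ^ r := by
    have h3 : ((Nat.log 2 X.card : ℕ) : ℝ) ≤ Real.log X.card / Real.log 2 := by
      have h4 := Real.natLog_le_logb X.card 2
      rwa [Real.logb] at h4
    have h4 : Real.log X.card ≤ Real.log N := Real.log_le_log (by linarith) hXN
    have h5 := Real.log_le_rpow_div (by linarith : (0 : ℝ) ≤ N) hr0
    have h6 : 1 ≤ N ^ r := Real.one_le_rpow hN1 hr0.le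
    have h7 : Real.log X.card / Real.log 2 ≤ (N ^ r / r) / Real.log 2 :=
      div_le_div_of_nonneg_right (h4.trans h5) hl2.le
    have h8 : (N ^ r / r) / Real.log 2 = (1 / (Real.log 2 * r)) * N ^ r := by field_simp
    rw [hL, hB]
    push_cast
    rw [h8] at h7
    nlinarith
  have hLpos : 0 < L := by rw [hL]; positivity
  have hEV : E ≤ 4 * L * V := by
    have : (X.mulEnergy Y : ℝ) ≤ ((4 * (Nat.log 2 X.card + 1) * (S.card * T ^ 2) : ℕ) : ℝ) := by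
      exact_mod_cast hE
    rw [hEr, hL, hV]
    refine this.trans (le_of_eq ?_)
    push_cast
    ring
  have h3 : 1 + σ / V ≤ 4 * (σ / V) := by
    have : 1 / 3 ≤ σ / V := by
      rw [le_div_iff₀ hV0]; linarith
    linarith
  have h4 : V ≤ G * N ^ (1 + ε / 2) * (4 ^ C * (σ ^ C / V ^ C)) := by
    refine h1.trans ?_
    have h5 : (1 + σ / V) ^ C ≤ 4 ^ C * (σ ^ C / V ^ C) := by
      rw [← Real.div_rpow hσ0.le hV0.le, ← Real.mul_rpow (by norm_num) (by positivity)]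
      exact Real.rpow_le_rpow (by positivity) h3 hC.le
    exact mul_le_mul_of_nonneg_left h5 (by positivity)
  have h5 : V ^ (1 + C) ≤ G * 4 ^ C * N ^ (1 + ε / 2) * σ ^ C := by
    have hVC : 0 < V ^ C := by positivity
    rw [Real.rpow_add hV0, Real.rpow_one]
    calc V * V ^ C ≤ (G * N ^ (1 + ε / 2) * (4 ^ C * (σ ^ C / V ^ C))) * V ^ C :=
          mul_le_mul_of_nonneg_right h4 hVC.le
      _ = _ := by field_simp
  have h6 : E ^ (1 + C) ≤ D * N ^ (1 + ε) * σ ^ C := by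
    have h7 : E ≤ (B * N ^ r) * V := hEV.trans (mul_le_mul_of_nonneg_right hL1 hV0.le)
    have h8 := Real.rpow_le_rpow hE0.le h7 (by positivity : 0 ≤ 1 + C)
    rw [Real.mul_rpow (by positivity) hV0.le, Real.mul_rpow hB0.le (by positivity),
      ← Real.rpow_mul (by linarith)] at h8
    have e1 : r * (1 + C) = ε / 2 := by rw [hr]; field_simp
    rw [e1] at h8
    refine h8.trans ?_
    calc B ^ (1 + C) * N ^ (ε / 2) * V ^ (1 + C) ≤
        B ^ (1 + C) * N ^ (ε / 2) * (G * 4 ^ C * N ^ (1 + ε / 2) * σ ^ C) :=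
          mul_le_mul_of_nonneg_left h5 (by positivity)
      _ = D * (N ^ (ε / 2) * N ^ (1 + ε / 2)) * σ ^ C := by rw [hD]; ring
      _ = _ := by rw [← Real.rpow_add (by linarith)]; congr 3; ring
  have h7 := Real.rpow_le_rpow (by positivity) h6 (by positivity : 0 ≤ 1 / C)
  have hNε : 0 < N ^ (1 + ε) := by positivity
  rw [Real.mul_rpow (by positivity) (by positivity), Real.mul_rpow hD0.le hNε.le,
    ← Real.rpow_mul hσ0.le, mul_one_div_cancel hC.ne', Real.rpow_one, ← Real.rpow_mul hE0.le] at h7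
  have e1 : (1 + C) * (1 / C) = 1 + 1 / C := by field_simp; ring
  rw [e1, Real.rpow_add hE0, Real.rpow_one] at h7
  rw [Real.div_rpow hE0.le hNε.le]
  have hDC : 0 < D ^ (1 / C) := by positivity
  have hNC : 0 < (N ^ (1 + ε)) ^ (1 / C) := by positivity
  have e2 : (D ^ (1 / C))⁻¹ * E * (E ^ (1 / C) / (N ^ (1 + ε)) ^ (1 / C)) =
      (E * E ^ (1 / C)) / (D ^ (1 / C) * (N ^ (1 + ε)) ^ (1 / C)) := by
    field_simp
  rw [e2, div_le_iff₀ (by positivity)]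
  linarith


/-- the energy form for sets of nonzero integers -/
theorem energy_int (ε : ℝ) (hε : 0 < ε) (M κ : ℝ) (hMd : M = mm ε)
    (hκd : κ = 1 / (9 + 720 * M)) (c' : ℝ)
    (hcd' : c' = cc ε (9 + 720 * M) (gg ε M) / 16 / 16 ^ κ) : 0 < c' ∧
    ∀ A B : Finset ℤ, A.Nonempty → B.Nonempty → (∀ a ∈ A, a ≠ 0) → (∀ b ∈ B, b ≠ 0) →
      c' * (A.mulEnergy B : ℝ) * ((A.mulEnergy B : ℝ) / ((A.card : ℝ) * B.card) ^ (1 + ε)) ^ κ ≤
        ((A + A).card : ℝ) * (B + B).card := by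
  classical
  have hM0 : 0 < M := by rw [hMd]; unfold mm; positivity
  have hκ : 0 < κ := by rw [hκd]; positivity
  obtain ⟨c, hcd⟩ : ∃ c : ℝ, c = cc ε (9 + 720 * M) (gg ε M) := ⟨_, rfl⟩
  rw [← hcd] at hcd'
  obtain ⟨hc, h⟩ := energy_main ε hε M _ κ hMd rfl hκd c hcd
  refine ⟨by rw [hcd']; positivity, ?_⟩
  rw [hcd']
  intro A B hA hB hA0 hB0
  obtain ⟨A', hA'ne, hA'pos, hA'c, hA's, hA'E⟩ := half A B hA hB hA0
  obtain ⟨B', hB'ne, hB'pos, hB'c, hB's, hB'E⟩ := half B A' hB hA'ne hB0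
  have hE : A.mulEnergy B ≤ 16 * A'.mulEnergy B' := by
    rw [mulEnergy_comm A' B']
    rw [mulEnergy_comm A' B] at hA'E
    omega
  have h1 := h A' B' hA'ne hB'ne hA'pos hB'pos
  obtain ⟨E, hEd⟩ : ∃ E : ℝ, E = (A.mulEnergy B : ℝ) := ⟨_, rfl⟩
  obtain ⟨E', hEd'⟩ : ∃ E' : ℝ, E' = (A'.mulEnergy B' : ℝ) := ⟨_, rfl⟩
  rw [← hEd]
  rw [← hEd'] at h1
  have hEE : E ≤ 16 * E' := by rw [hEd, hEd']; exact_mod_cast hE
  have hE0 : 0 < E := by rw [hEd]; exact_mod_cast mulEnergy_pos hA hB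
  have hE0' : 0 < E' := by linarith
  have cA' : (0 : ℝ) < A'.card := by exact_mod_cast hA'ne.card_pos
  have cB' : (0 : ℝ) < B'.card := by exact_mod_cast hB'ne.card_pos
  have cA : (A'.card : ℝ) ≤ A.card := by exact_mod_cast hA'c
  have cB : (B'.card : ℝ) ≤ B.card := by exact_mod_cast hB'c
  have hN : ((A'.card : ℝ) * B'.card) ^ (1 + ε) ≤ ((A.card : ℝ) * B.card) ^ (1 + ε) :=
    Real.rpow_le_rpow (by positivity) (mul_le_mul cA cB cB'.le (by linarith)) (by linarith)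
  have hN0 : 0 < ((A'.card : ℝ) * B'.card) ^ (1 + ε) := by positivity
  have h2 : E / ((A.card : ℝ) * B.card) ^ (1 + ε) ≤
      16 * (E' / ((A'.card : ℝ) * B'.card) ^ (1 + ε)) := by
    calc E / ((A.card : ℝ) * B.card) ^ (1 + ε) ≤ E / ((A'.card : ℝ) * B'.card) ^ (1 + ε) :=
          div_le_div_of_nonneg_left hE0.le hN0 hN
      _ ≤ (16 * E') / ((A'.card : ℝ) * B'.card) ^ (1 + ε) :=
          div_le_div_of_nonneg_right hEE hN0.le
      _ = _ := by ring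
  have h3 : (E / ((A.card : ℝ) * B.card) ^ (1 + ε)) ^ κ ≤
      16 ^ κ * (E' / ((A'.card : ℝ) * B'.card) ^ (1 + ε)) ^ κ := by
    rw [← Real.mul_rpow (by norm_num) (by positivity)]
    exact Real.rpow_le_rpow (by positivity) h2 hκ.le
  have h16 : (0 : ℝ) < 16 ^ κ := by positivity
  calc c / 16 / 16 ^ κ * E * (E / ((A.card : ℝ) * B.card) ^ (1 + ε)) ^ κ
      ≤ c / 16 / 16 ^ κ * (16 * E') *
        (16 ^ κ * (E' / ((A'.card : ℝ) * B'.card) ^ (1 + ε)) ^ κ) := by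
        gcongr
    _ = c * E' * (E' / ((A'.card : ℝ) * B'.card) ^ (1 + ε)) ^ κ := by
        field_simp
    _ ≤ ((A' + A').card : ℝ) * (B' + B').card := h1
    _ ≤ _ := by
        apply mul_le_mul (by exact_mod_cast hA's) (by exact_mod_cast hB's) (Nat.cast_nonneg _)
          (Nat.cast_nonneg _)


/-- one set of integers -/
theorem one_set (δ : ℝ) (hδ : 0 < δ) (M κ : ℝ) (hMd : M = mm (δ / 4))
    (hκd : κ = 1 / (9 + 720 * M)) (c' c : ℝ)
    (hcd : c = cc (δ / 4) (9 + 720 * M) (gg (δ / 4) M) / 16 / 16 ^ κ)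
    (hcd' : c' = min 1 (c * (1 / 16) ^ (1 + κ))) : 0 < c' ∧
    ∀ A : Finset ℤ, A.Nonempty → ((A * A).card : ℝ) ≤ (A.card : ℝ) ^ (2 - δ) →
      c' * (A.card : ℝ) ^ (4 + κ * (δ / 2)) ≤ ((A + A).card : ℝ) ^ 2 * (A * A).card := by
  classical
  have hM0 : 0 < M := by rw [hMd]; unfold mm; positivity
  have hκ : 0 < κ := by rw [hκd]; positivity
  obtain ⟨hc, h⟩ := energy_int (δ / 4) (by positivity) M κ hMd hκd c hcd
  refine ⟨by rw [hcd']; positivity, ?_⟩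
  rw [hcd']
  intro A hA hAA
  have cA : (1 : ℝ) ≤ A.card := by exact_mod_cast hA.card_pos
  have hA0' : (0 : ℝ) < A.card := by linarith
  by_cases hA1 : A.card = 1
  · have h1 : (1 : ℝ) ≤ (A + A).card := by exact_mod_cast (hA.add hA).card_pos
    have h2 : (1 : ℝ) ≤ (A * A).card := by exact_mod_cast (hA.mul hA).card_pos
    rw [hA1, Nat.cast_one, Real.one_rpow, mul_one]
    refine (min_le_left _ _).trans ?_
    nlinarith
  obtain ⟨D, hD⟩ : ∃ D, D = A.erase 0 := ⟨_, rfl⟩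
  have hDc : A.card ≤ 2 * D.card := by
    have h1 : A.card - 1 ≤ D.card := by rw [hD]; exact pred_card_le_card_erase
    have h2 := hA.card_pos
    omega
  have hDne : D.Nonempty := by
    rw [← card_pos]
    have := hA.card_pos
    omega
  have hDA : D ⊆ A := by rw [hD]; exact erase_subset _ _
  have hD0 : ∀ a ∈ D, a ≠ 0 := fun a ha => by
    rw [hD] at ha
    exact (mem_erase.1 ha).1
  have h1 := h D D hDne hDne hD0 hD0
  have h2 := le_card_mul_mul_mulEnergy D D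
  obtain ⟨n, hn⟩ : ∃ n : ℝ, n = (A.card : ℝ) := ⟨_, rfl⟩
  obtain ⟨d, hd⟩ : ∃ d : ℝ, d = (D.card : ℝ) := ⟨_, rfl⟩
  obtain ⟨E, hE⟩ : ∃ E : ℝ, E = (D.mulEnergy D : ℝ) := ⟨_, rfl⟩
  obtain ⟨P, hP⟩ : ∃ P : ℝ, P = ((A * A).card : ℝ) := ⟨_, rfl⟩
  rw [← hd, ← hE] at h1
  rw [← hn] at cA hA0' hAA
  rw [← hP] at hAA
  rw [← hn, ← hP]
  have hdn : d ≤ n := by rw [hd, hn]; exact_mod_cast card_le_card hDA
  have hnd : n / 2 ≤ d := by
    have : n ≤ 2 * d := by rw [hd, hn]; exact_mod_cast hDc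
    linarith
  have hd1 : 1 ≤ d := by rw [hd]; exact_mod_cast hDne.card_pos
  have hd0 : 0 < d := by linarith
  have hE0 : 0 < E := by rw [hE]; exact_mod_cast mulEnergy_pos hDne hDne
  have hP0 : 0 < P := by rw [hP]; exact_mod_cast (hA.mul hA).card_pos
  have h2' : d ^ 4 ≤ P * E := by
    have h3 : ((D * D).card : ℝ) ≤ P := by
      rw [hP]; exact_mod_cast card_le_card (mul_subset_mul hDA hDA)
    have h4 : d ^ 4 ≤ ((D * D).card : ℝ) * E := by
      rw [hd, hE]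
      calc (D.card : ℝ) ^ 4 = (D.card : ℝ) ^ 2 * (D.card : ℝ) ^ 2 := by ring
        _ ≤ _ := by exact_mod_cast h2
    exact h4.trans (mul_le_mul_of_nonneg_right h3 hE0.le)
  -- the energy is at least `n ^ (2 + δ) / 16`
  have hn4 : (n / 2) ^ 4 ≤ d ^ 4 := pow_le_pow_left₀ (by positivity) hnd 4
  have h3 : n ^ (2 + δ) / 16 ≤ E := by
    have h4 : (n / 2) ^ 4 ≤ n ^ (2 - δ) * E :=
      hn4.trans (h2'.trans (mul_le_mul_of_nonneg_right hAA hE0.le))
    have e1 : (n / 2) ^ 4 = n ^ (2 - δ) * (n ^ (2 + δ) / 16) := by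
      have e2 : n ^ (4 : ℝ) = n ^ (2 - δ) * n ^ (2 + δ) := by
        rw [← Real.rpow_add hA0']; congr 1; ring
      have e3 : n ^ (4 : ℝ) = n ^ 4 := by
        rw [← Real.rpow_natCast]; norm_num
      rw [e3] at e2
      rw [div_pow, e2]
      ring
    rw [e1] at h4
    exact le_of_mul_le_mul_left h4 (by positivity)
  have h4 : n ^ (δ / 2) / 16 ≤ E / (d * d) ^ (1 + δ / 4) := by
    rw [le_div_iff₀ (by positivity)]
    refine le_trans ?_ h3
    have h5 : (d * d) ^ (1 + δ / 4) ≤ n ^ (2 + δ / 2) := by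
      have h6 : (d * d) ^ (1 + δ / 4) ≤ (n * n) ^ (1 + δ / 4) :=
        Real.rpow_le_rpow (by positivity) (mul_le_mul hdn hdn hd0.le hA0'.le) (by positivity)
      refine h6.trans (le_of_eq ?_)
      rw [← sq, ← Real.rpow_two, ← Real.rpow_mul hA0'.le]
      congr 1; ring
    calc n ^ (δ / 2) / 16 * (d * d) ^ (1 + δ / 4) ≤ n ^ (δ / 2) / 16 * n ^ (2 + δ / 2) :=
          mul_le_mul_of_nonneg_left h5 (by positivity)
      _ = (n ^ (δ / 2) * n ^ (2 + δ / 2)) / 16 := by ring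
      _ = _ := by rw [← Real.rpow_add hA0']; congr 2; ring
  have h5 : n ^ (κ * (δ / 2)) * (1 / 16) ^ κ ≤ (E / (d * d) ^ (1 + δ / 4)) ^ κ := by
    have h6 := Real.rpow_le_rpow (by positivity) h4 hκ.le
    refine le_trans (le_of_eq ?_) h6
    rw [mul_comm κ (δ / 2), Real.rpow_mul hA0'.le, ← Real.mul_rpow (by positivity) (by norm_num)]
    congr 1; ring
  have hDD : ((D + D).card : ℝ) ≤ (A + A).card := by
    exact_mod_cast card_le_card (add_subset_add hDA hDA)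
  have hmin : min 1 (c * (1 / 16) ^ (1 + κ)) ≤ c * (1 / 16) ^ (1 + κ) := min_le_right _ _
  have e16 : (1 / 16 : ℝ) ^ (1 + κ) = 1 / 16 * (1 / 16) ^ κ := by
    rw [Real.rpow_add (by norm_num), Real.rpow_one]
  have e4 : n ^ (4 + κ * (δ / 2)) = n ^ 4 * n ^ (κ * (δ / 2)) := by
    rw [Real.rpow_add hA0']
    congr 1
    rw [← Real.rpow_natCast]; norm_num
  have h6 : (n / 2) ^ 4 ≤ P * E := hn4.trans h2'
  have h7 : n ^ 4 / 16 ≤ P * E := by
    have : (n / 2) ^ 4 = n ^ 4 / 16 := by ring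
    rwa [this] at h6
  have h1' : c * E * (E / (d * d) ^ (1 + δ / 4)) ^ κ ≤ ((A + A).card : ℝ) ^ 2 := by
    refine h1.trans ?_
    rw [sq]
    exact mul_le_mul hDD hDD (Nat.cast_nonneg _) (Nat.cast_nonneg _)
  calc min 1 (c * (1 / 16) ^ (1 + κ)) * n ^ (4 + κ * (δ / 2))
      ≤ c * (1 / 16) ^ (1 + κ) * n ^ (4 + κ * (δ / 2)) :=
        mul_le_mul_of_nonneg_right hmin (by positivity)
    _ = c * (n ^ 4 / 16) * (n ^ (κ * (δ / 2)) * (1 / 16) ^ κ) := by rw [e16, e4]; ring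
    _ ≤ c * (P * E) * (E / (d * d) ^ (1 + δ / 4)) ^ κ := by gcongr
    _ = (c * E * (E / (d * d) ^ (1 + δ / 4)) ^ κ) * P := by ring
    _ ≤ _ := mul_le_mul_of_nonneg_right h1' hP0.le


end Pool.Agent.Zk30.SQ
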