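import Pool.Agent.Zk30.SQ.Bound

/-!
# The exponent and the constant are at least `exp (-exp (K / δ))`
-/

set_option autoImplicit false

namespace Pool.Agent.Zk30.SQ

theorem const_ge : ∃ K : ℝ, 0 < K ∧ ∀ δ : ℝ, 0 < δ → δ ≤ 1 → ∀ ε : ℝ, δ / 4 ≤ ε → ε ≤ 1 →
    ∀ M κ : ℝ, M = mm ε → κ = 1 / (9 + 720 * M) →
    Real.exp (-Real.exp (K / δ)) ≤
      cc ε (9 + 720 * M) (gg ε M) / 16 / 16 ^ κ * (1 / 16) ^ (1 + κ) := by
  obtain ⟨B, hB0, hB⟩ := mm_log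
  refine ⟨3 * B + 88949 + 68, by positivity, ?_⟩
  intro δ hδ hδ1 ε hε hε1 M κ hM hκ
  have hε0 : 0 < ε := by linarith
  obtain ⟨m, hm0, hm1, hm⟩ := hB ε hε0 hε1
  rw [hm] at hM
  have hc := cc_ge hε0 hε1 hM hm0 rfl
  have hM1 : 1 ≤ M := by rw [hM]; exact Real.one_le_exp hm0
  have hκ0 : 0 < κ := by rw [hκ]; positivity
  have hκ1 : κ ≤ 1 := by
    rw [hκ, div_le_one (by positivity)]; linarith
  obtain ⟨c, hcd⟩ : ∃ c : ℝ, c = cc ε (9 + 720 * M) (gg ε M) := ⟨_, rfl⟩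
  rw [← hcd] at hc ⊢
  have hc0 : 0 < c := lt_of_lt_of_le (Real.exp_pos _) hc
  have h16 : (16 : ℝ) ^ κ ≤ 16 := by
    calc (16 : ℝ) ^ κ ≤ 16 ^ (1 : ℝ) := Real.rpow_le_rpow_of_exponent_le (by norm_num) hκ1
      _ = 16 := Real.rpow_one _
  have h16' : (1 / 256 : ℝ) ≤ (1 / 16) ^ (1 + κ) := by
    calc (1 / 256 : ℝ) = (1 / 16) ^ (2 : ℝ) := by norm_num
      _ ≤ _ := Real.rpow_le_rpow_of_exponent_ge (by norm_num) (by norm_num) (by linarith)
  have h1 : c / 16 / 16 ≤ c / 16 / 16 ^ κ :=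
    div_le_div_of_nonneg_left (by positivity) (by positivity) h16
  have h2 : c / 16 / 16 * (1 / 256) ≤ c / 16 / 16 ^ κ * (1 / 16) ^ (1 + κ) :=
    mul_le_mul h1 h16' (by norm_num) (by positivity)
  refine le_trans ?_ h2
  -- the number `65536`
  have h3 : Real.exp (-65536) ≤ 1 / 65536 := by
    rw [Real.exp_neg, ← one_div]
    exact one_div_le_one_div_of_le (by norm_num) (by linarith [Real.add_one_le_exp (65536 : ℝ)])
  have h4 : Real.exp (-(23401 + 3 * m + 3 / ε)) * Real.exp (-65536) ≤ c / 16 / 16 * (1 / 256) := by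
    have e1 : c / 16 / 16 * (1 / 256) = c * (1 / 65536) := by ring
    rw [e1]
    exact mul_le_mul hc h3 (Real.exp_pos _).le hc0.le
  refine le_trans ?_ h4
  rw [← Real.exp_add]
  apply Real.exp_le_exp.2
  -- the exponent
  have hi : 1 ≤ 1 / δ := by rw [le_div_iff₀ hδ]; linarith
  obtain ⟨W, hW⟩ : ∃ W : ℝ, W = Real.exp (68 / δ) := ⟨_, rfl⟩
  have hW1 : 1 ≤ W := by rw [hW]; exact Real.one_le_exp (by positivity)
  have hiW : 1 / δ ≤ W := by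
    have h5 := Real.add_one_le_exp (68 / δ)
    have h6 : 68 / δ = 68 * (1 / δ) := by ring
    rw [hW]
    linarith
  have h5 : Real.exp (17 / ε) ≤ W := by
    rw [hW]
    apply Real.exp_le_exp.2
    rw [div_le_div_iff₀ hε0 hδ]
    linarith
  have h6 : 3 / ε ≤ 12 * (1 / δ) := by
    have : 12 * (1 / δ) = 12 / δ := by ring
    rw [this, div_le_div_iff₀ hε0 hδ]
    linarith
  have h7 : m ≤ B * W := hm1.trans (mul_le_mul_of_nonneg_left h5 hB0.le)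
  have h8 : 3 * B + 88949 ≤ Real.exp ((3 * B + 88949) / δ) := by
    have h9 := Real.add_one_le_exp ((3 * B + 88949) / δ)
    have h10 : 3 * B + 88949 ≤ (3 * B + 88949) / δ := by
      rw [le_div_iff₀ hδ]; nlinarith
    linarith
  have h11 : (3 * B + 88949) * W ≤ Real.exp ((3 * B + 88949 + 68) / δ) := by
    have e : Real.exp ((3 * B + 88949 + 68) / δ) = Real.exp ((3 * B + 88949) / δ) * W := by
      rw [hW, ← Real.exp_add]; congr 1; ring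
    rw [e]
    exact mul_le_mul_of_nonneg_right h8 (by linarith)
  have h12 : 23401 + 3 * m + 3 / ε + 65536 ≤ (3 * B + 88949) * W := by
    have : (3 * B + 88949) * W = 3 * (B * W) + 12 * W + 88937 * W := by ring
    rw [this]
    linarith
  linarith

theorem all_ge : ∃ K : ℝ, 0 < K ∧ ∀ δ : ℝ, 0 < δ → δ ≤ 1 → ∀ ε : ℝ, δ / 4 ≤ ε → ε ≤ 1 →
    ∀ M κ : ℝ, M = mm ε → κ = 1 / (9 + 720 * M) →
    Real.exp (-Real.exp (K / δ)) ≤ κ * (δ / 2) ∧
    Real.exp (-Real.exp (K / δ)) ≤ cc ε (9 + 720 * M) (gg ε M) / 16 / 16 ^ κ ∧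
    Real.exp (-Real.exp (K / δ)) ≤
      min 1 (cc ε (9 + 720 * M) (gg ε M) / 16 / 16 ^ κ * (1 / 16) ^ (1 + κ)) := by
  obtain ⟨K₁, hK₁, h₁⟩ := Pool.Agent.Zk30.SP.kap_mul_ge
  obtain ⟨K₂, hK₂, h₂⟩ := const_ge
  refine ⟨K₁ + K₂, by positivity, ?_⟩
  intro δ hδ hδ1 ε hε hε1 M κ hM hκ
  have a1 := h₁ δ hδ hδ1 ε hε hε1
  have a2 := h₂ δ hδ hδ1 ε hε hε1 M κ hM hκ
  have hle : ∀ K' : ℝ, K' ≤ K₁ + K₂ → Real.exp (-Real.exp ((K₁ + K₂) / δ)) ≤
      Real.exp (-Real.exp (K' / δ)) := fun K' hK' =>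
    Real.exp_le_exp.2 (neg_le_neg (Real.exp_le_exp.2 (div_le_div_of_nonneg_right hK' hδ.le)))
  have b1 := (hle K₁ (by linarith)).trans a1
  have b2 := (hle K₂ (by linarith)).trans a2
  have hM0 : 0 < M := by rw [hM]; unfold mm; positivity
  have hκ0 : 0 < κ := by rw [hκ]; positivity
  have hle1 : Real.exp (-Real.exp ((K₁ + K₂) / δ)) ≤ 1 :=
    Real.exp_le_one_iff.2 (neg_nonpos.2 (Real.exp_pos _).le)
  refine ⟨?_, ?_, le_min hle1 b2⟩
  · rw [hκ, hM]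
    exact b1
  · refine b2.trans ?_
    have h3 : ((1 : ℝ) / 16) ^ (1 + κ) ≤ 1 :=
      Real.rpow_le_one (by norm_num) (by norm_num) (by positivity)
    have hc : 0 < cc ε (9 + 720 * M) (gg ε M) / 16 / 16 ^ κ := by
      by_contra hcon
      push Not at hcon
      have h4 : cc ε (9 + 720 * M) (gg ε M) / 16 / 16 ^ κ * (1 / 16) ^ (1 + κ) ≤ 0 :=
        mul_nonpos_of_nonpos_of_nonneg hcon (by positivity)
      have h5 := Real.exp_pos (-Real.exp ((K₁ + K₂) / δ))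
      linarith
    calc cc ε (9 + 720 * M) (gg ε M) / 16 / 16 ^ κ * (1 / 16) ^ (1 + κ) ≤
        cc ε (9 + 720 * M) (gg ε M) / 16 / 16 ^ κ * 1 := mul_le_mul_of_nonneg_left h3 hc.le
      _ = _ := mul_one _

end Pool.Agent.Zk30.SQ
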